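import Pool.Agent.W550.LG2.Stm

/-!
# LG2-KER: constant rank, the derivative maps the kernel into the range
-/
set_option autoImplicit false
open Topology Filter Set
open scoped ContDiff InnerProductSpace

namespace Pool.Agent.W983.LG2

open Pool.Agent.W617.LG Pool.Agent.W550.LG2

theorem s_ker : S_KER := by
  intro q C τ h r hMX y v hy hv
  refine ⟨?_, ?_⟩
  · intro a
    by_contra hcon
    apply hMX y hy
    refine ⟨Fin.cons a v, ?_⟩
    have h1 : (fun i : Fin (r + 1) => C y ((Fin.cons a v : Fin (r + 1) → E q) i))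
        = Fin.cons (C y a) (fun i => C y (v i)) := by
      funext i
      refine Fin.cases ?_ (fun j => ?_) i
      · simp
      · simp
    rw [h1]
    exact linearIndependent_finCons.2 ⟨hv, hcon⟩
  · intro a w hw
    by_contra hcon
    have hLI : LinearIndependent ℝ
        (Fin.cons (fderiv ℝ C y a w) (fun i => C y (v i)) : Fin (r + 1) → (E q →L[ℝ] E q)) :=
      linearIndependent_finCons.2 ⟨hv, hcon⟩
    have hdiff : HasFDerivAt C (fderiv ℝ C y) y :=
      ((h.smooth y hy).differentiableAt (by simp)).hasFDerivAt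
    have hline : HasDerivAt (fun s : ℝ => y + s • a) a 0 := by
      simpa using ((hasDerivAt_id (0 : ℝ)).smul_const a).const_add y
    have hC : HasDerivAt (fun s : ℝ => C (y + s • a)) (fderiv ℝ C y a) 0 := by
      have h0 : HasFDerivAt C (fderiv ℝ C y) (y + (0 : ℝ) • a) := by simpa using hdiff
      exact HasFDerivAt.comp_hasDerivAt (𝕜 := ℝ) (E := E q →L[ℝ] E q →L[ℝ] E q) (F := E q)
        (0 : ℝ) (l := C) h0 hline
    have hCw : HasDerivAt (fun s : ℝ => C (y + s • a) w) (fderiv ℝ C y a w) 0 := by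
      have := hC.clm_apply (hasDerivAt_const (0 : ℝ) w)
      simpa using this
    have hslope : Tendsto (fun t : ℝ => t⁻¹ • (C (y + t • a) w)) (𝓝[≠] 0)
        (𝓝 (fderiv ℝ C y a w)) := by
      have := hCw.tendsto_slope_zero
      simpa [hw] using this
    have hCv : ∀ i, Tendsto (fun t : ℝ => C (y + t • a) (v i)) (𝓝[≠] 0) (𝓝 (C y (v i))) := by
      intro i
      have h1 : ContinuousAt (fun s : ℝ => C (y + s • a) (v i)) 0 := by
        have := hC.clm_apply (hasDerivAt_const (0 : ℝ) (v i))
        exact this.continuousAt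
      have h2 := h1.tendsto.mono_left (nhdsWithin_le_nhds (s := {(0 : ℝ)}ᶜ))
      simpa using h2
    have hF : Tendsto (fun t : ℝ => (Fin.cons (t⁻¹ • (C (y + t • a) w))
        (fun i => C (y + t • a) (v i)) : Fin (r + 1) → (E q →L[ℝ] E q))) (𝓝[≠] 0)
        (𝓝 (Fin.cons (fderiv ℝ C y a w) (fun i => C y (v i)))) := by
      rw [tendsto_pi_nhds]
      intro i
      refine Fin.cases ?_ (fun j => ?_) i
      · simpa using hslope
      · simpa using hCv j
    have hev := hF.eventually hLI.eventually
    have hne : ∀ᶠ t : ℝ in 𝓝[≠] 0, y + t • a ≠ 0 := by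
      have h1 : ContinuousAt (fun s : ℝ => y + s • a) 0 := hline.continuousAt
      have h2 : ∀ᶠ t : ℝ in 𝓝 0, y + t • a ≠ 0 := by
        apply h1.eventually_ne
        simpa using hy
      exact h2.filter_mono nhdsWithin_le_nhds
    obtain ⟨t, ht1, ht2⟩ := (hev.and hne).exists
    apply hMX _ ht2
    refine ⟨Fin.cons (t⁻¹ • w) v, ?_⟩
    have h1 : (fun i : Fin (r + 1) => C (y + t • a) ((Fin.cons (t⁻¹ • w) v : Fin (r + 1) → E q) i))
        = Fin.cons (t⁻¹ • (C (y + t • a) w)) (fun i => C (y + t • a) (v i)) := by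
      funext i
      refine Fin.cases ?_ (fun j => ?_) i
      · simp
      · simp
    rw [h1]
    exact ht1

end Pool.Agent.W983.LG2
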